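import Mathlib

set_option autoImplicit false

namespace Pool.Agent.H174R3.DP

/-! ## The gadget on 8 vertices: 0 = u, 1 = v, paths u-2-3-v, u-4-5-v, u-6-v, u-7-v -/

def gDir (s t : Nat) : Bool :=
  (s == 0 && t == 2) || (s == 1 && t == 3) || (s == 2 && t == 3) ||
  (s == 0 && t == 4) || (s == 1 && t == 5) || (s == 4 && t == 5) ||
  (s == 0 && t == 6) || (s == 1 && t == 6) || (s == 0 && t == 7) || (s == 1 && t == 7)

def gN (s t : Nat) : Bool := gDir s t || gDir t s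

def dirN (s t c d : Nat) : Bool :=
  (Nat.blt d 4) && (
    (s == 0 && t == 2 && c == d) ||
    (s == 1 && t == 3 && c == [4,1,5,0].getD d 9) ||
    (s == 2 && t == 3 && c == d) ||
    (s == 0 && t == 4 && c == [0,1,2,4].getD d 9) ||
    (s == 1 && t == 5 && c == [5,4,1,2].getD d 9) ||
    (s == 4 && t == 5 && c == d) ||
    (s == 0 && t == 6 && c == [0,1,4,5].getD d 9) ||
    (s == 1 && t == 6 && c == [5,4,2,3].getD d 9) ||
    (s == 0 && t == 7 && c == [2,3,4,5].getD d 9) ||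
    (s == 1 && t == 7 && c == [1,0,3,2].getD d 9))

def hN (s t c d : Nat) : Bool := dirN s t c d || dirN t s d c

def pairs6 : List (Nat × Nat) :=
  [(0,1),(0,2),(0,3),(0,4),(0,5),(1,2),(1,3),(1,4),(1,5),(2,3),(2,4),(2,5),(3,4),(3,5),(4,5)]

def pairs4 : List (Nat × Nat) := [(0,1),(0,2),(0,3),(1,2),(1,3),(2,3)]

def confl (s t : Nat) (A B : Nat × Nat) : Bool :=
  hN s t A.1 B.1 || hN s t A.1 B.2 || hN s t A.2 B.1 || hN s t A.2 B.2

def mainChk : Bool :=
  pairs6.all fun X => pairs6.all fun Y =>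
    (pairs4.all fun P => confl 0 2 X P || (pairs4.all fun Q => confl 1 3 Y Q || confl 2 3 P Q)) ||
    (pairs4.all fun P => confl 0 4 X P || (pairs4.all fun Q => confl 1 5 Y Q || confl 4 5 P Q)) ||
    (pairs4.all fun W => confl 0 6 X W || confl 1 6 Y W) ||
    (pairs4.all fun W => confl 0 7 X W || confl 1 7 Y W)

set_option maxRecDepth 100000 in
theorem mainChk_true : mainChk = true := by decide +kernel

theorem gN_symm (s t : Nat) (h : gN s t = true) : gN t s = true := by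
  unfold gN at *
  rw [Bool.or_comm]; exact h

theorem hN_symm (s t c d : Nat) (h : hN s t c d = true) : hN t s d c = true := by
  unfold hN at *
  rw [Bool.or_comm]; exact h

theorem gN_irrefl : ∀ s : Fin 8, ¬ gN s.val s.val = true := by decide +kernel

theorem hN_gN : ∀ s t : Fin 8, ∀ c d : Fin 6, hN s.val t.val c.val d.val = true →
    gN s.val t.val = true := by decide +kernel

theorem hN_match : ∀ s t : Fin 8, ∀ c d e : Fin 6, hN s.val t.val c.val d.val = true →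
    hN s.val t.val c.val e.val = true → d = e := by decide +kernel

/-! ## the base graph -/

abbrev V : Type := Option ((Fin 6 × Fin 6) × Fin 8)

def gAdj : V → V → Prop
  | none, none => False
  | none, some (_, s) => 2 ≤ s.val
  | some (_, s), none => 2 ≤ s.val
  | some (k, s), some (k', s') => k = k' ∧ gN s.val s'.val = true

def G : SimpleGraph V where
  Adj := gAdj
  symm := ⟨by
    rintro (_ | ⟨k, s⟩) (_ | ⟨k', s'⟩) h
    · exact h
    · exact h
    · exact h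
    · exact ⟨h.1.symm, gN_symm _ _ h.2⟩⟩
  loopless := ⟨by
    rintro (_ | ⟨k, s⟩) h
    · exact h
    · exact gN_irrefl s h.2⟩

/-! ## the bad 6-fold cover -/

def prm (k : Fin 6 × Fin 6) : Equiv.Perm (Fin 6) :=
  (Equiv.swap k.1 4).trans (Equiv.swap ((Equiv.swap k.1 4) k.2) 5)

theorem prm_one (k : Fin 6 × Fin 6) (h : k.1 ≠ k.2) : prm k k.1 = 4 := by
  have key : ∀ k : Fin 6 × Fin 6, k.1 ≠ k.2 → prm k k.1 = 4 := by decide +kernel
  exact key k h

theorem prm_two (k : Fin 6 × Fin 6) (h : k.1 ≠ k.2) : prm k k.2 = 5 := by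
  have key : ∀ k : Fin 6 × Fin 6, k.1 ≠ k.2 → prm k k.2 = 5 := by decide +kernel
  exact key k h

def hAdj : V × Fin 6 → V × Fin 6 → Prop
  | (none, _), (none, _) => False
  | (none, c), (some (k, s), d) => 2 ≤ s.val ∧ d = prm k c
  | (some (k, s), d), (none, c) => 2 ≤ s.val ∧ d = prm k c
  | (some (k, s), c), (some (k', s'), d) => k = k' ∧ hN s.val s'.val c.val d.val = true

def H : SimpleGraph (V × Fin 6) where
  Adj := hAdj
  symm := ⟨by
    rintro ⟨_ | ⟨k, s⟩, c⟩ ⟨_ | ⟨k', s'⟩, d⟩ h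
    · exact h
    · exact h
    · exact h
    · exact ⟨h.1.symm, hN_symm _ _ _ _ h.2⟩⟩
  loopless := ⟨by
    rintro ⟨_ | ⟨k, s⟩, c⟩ h
    · exact h
    · exact gN_irrefl s (hN_gN s s c c h.2)⟩

theorem H_cover (x y : V × Fin 6) (h : H.Adj x y) : G.Adj x.1 y.1 := by
  rcases x with ⟨_ | ⟨k, s⟩, c⟩ <;> rcases y with ⟨_ | ⟨k', s'⟩, d⟩
  · exact h
  · exact h.1
  · exact h.1
  · exact ⟨h.1, hN_gN s s' c d h.2⟩

theorem H_match (x : V × Fin 6) (v : V) (j k : Fin 6) (h1 : H.Adj x (v, j)) (h2 : H.Adj x (v, k)) :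
    j = k := by
  rcases x with ⟨_ | ⟨a, s⟩, c⟩ <;> rcases v with _ | ⟨b, s'⟩
  · exact h1.elim
  · exact h1.2.trans h2.2.symm
  · exact (prm a).injective (h1.2.symm.trans h2.2)
  · exact hN_match s s' c j k h1.2 h2.2

theorem two_of_card (F : Finset (Fin 6)) (h : F.card = 2) :
    ∃ a b : Fin 6, a < b ∧ a ∈ F ∧ b ∈ F := by
  obtain ⟨a, b, hab, rfl⟩ := Finset.card_eq_two.mp h
  rcases lt_or_gt_of_ne hab with h | h
  · exact ⟨a, b, h, by simp, by simp⟩
  · exact ⟨b, a, h, by simp, by simp⟩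

theorem mem_pairs6 (a b : Fin 6) (h : a < b) : (a.val, b.val) ∈ pairs6 := by
  have key : ∀ a b : Fin 6, a < b → (a.val, b.val) ∈ pairs6 := by decide +kernel
  exact key a b h

theorem mem_pairs4 (a b : Fin 6) (h : a < b) (hb : b.val < 4) : (a.val, b.val) ∈ pairs4 := by
  have key : ∀ a b : Fin 6, a < b → b.val < 4 → (a.val, b.val) ∈ pairs4 := by decide +kernel
  exact key a b h hb

theorem H_bad (f : V → Finset (Fin 6)) (hf : ∀ v, (f v).card = 2)
    (hind : ∀ (u v : V), ∀ i ∈ f u, ∀ j ∈ f v, ¬ H.Adj (u, i) (v, j)) : False := by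
  obtain ⟨i, j, hij, hi, hj⟩ := two_of_card (f none) (hf none)
  have hne : (i, j).1 ≠ (i, j).2 := ne_of_lt hij
  -- pairs chosen in the copy
  have hpair : ∀ s : Fin 8, ∃ a b : Fin 6, a < b ∧ a ∈ f (some ((i, j), s)) ∧ b ∈ f (some ((i, j), s)) :=
    fun s => two_of_card _ (hf _)
  have hlt : ∀ s : Fin 8, 2 ≤ s.val → ∀ c ∈ f (some ((i, j), s)), c.val < 4 := by
    intro s hs c hc
    by_contra hcon
    have hc45 : c = 4 ∨ c = 5 := by
      have key : ∀ c : Fin 6, ¬ c.val < 4 → c = 4 ∨ c = 5 := by decide +kernel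
      exact key c hcon
    rcases hc45 with rfl | rfl
    · exact hind none (some ((i, j), s)) i hi 4 hc ⟨hs, (prm_one (i, j) hne).symm⟩
    · exact hind none (some ((i, j), s)) j hj 5 hc ⟨hs, (prm_two (i, j) hne).symm⟩
  have hno : ∀ s t : Fin 8, ∀ c ∈ f (some ((i, j), s)), ∀ d ∈ f (some ((i, j), t)),
      hN s.val t.val c.val d.val = false := by
    intro s t c hc d hd
    by_contra hcon
    have hcon' : hN s.val t.val c.val d.val = true := by simpa using hcon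
    exact hind _ _ c hc d hd ⟨rfl, hcon'⟩
  have hconfl : ∀ s t : Fin 8, ∀ a b c d : Fin 6, a ∈ f (some ((i, j), s)) → b ∈ f (some ((i, j), s)) →
      c ∈ f (some ((i, j), t)) → d ∈ f (some ((i, j), t)) →
      confl s.val t.val (a.val, b.val) (c.val, d.val) = false := by
    intro s t a b c d ha hb hc hd
    unfold confl
    simp only [hno s t a ha c hc, hno s t a ha d hd, hno s t b hb c hc, hno s t b hb d hd,
      Bool.or_false]
  obtain ⟨x1, x2, hx, hx1, hx2⟩ := hpair 0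
  obtain ⟨y1, y2, hy, hy1, hy2⟩ := hpair 1
  obtain ⟨a1, a2, ha, ha1, ha2⟩ := hpair 2
  obtain ⟨b1, b2, hb, hb1, hb2⟩ := hpair 3
  obtain ⟨c1, c2, hc, hc1, hc2⟩ := hpair 4
  obtain ⟨d1, d2, hd, hd1, hd2⟩ := hpair 5
  obtain ⟨e1, e2, he, he1, he2⟩ := hpair 6
  obtain ⟨g1, g2, hg, hg1, hg2⟩ := hpair 7
  have hm := mainChk_true
  unfold mainChk at hm
  rw [List.all_eq_true] at hm
  have hm1 := hm _ (mem_pairs6 x1 x2 hx)
  rw [List.all_eq_true] at hm1
  have hm2 := hm1 _ (mem_pairs6 y1 y2 hy)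
  simp only [Bool.or_eq_true, List.all_eq_true] at hm2
  have k2 := mem_pairs4 a1 a2 ha (hlt 2 (by decide) a2 ha2)
  have k3 := mem_pairs4 b1 b2 hb (hlt 3 (by decide) b2 hb2)
  have k4 := mem_pairs4 c1 c2 hc (hlt 4 (by decide) c2 hc2)
  have k5 := mem_pairs4 d1 d2 hd (hlt 5 (by decide) d2 hd2)
  have k6 := mem_pairs4 e1 e2 he (hlt 6 (by decide) e2 he2)
  have k7 := mem_pairs4 g1 g2 hg (hlt 7 (by decide) g2 hg2)
  have n02 := hconfl 0 2 x1 x2 a1 a2 hx1 hx2 ha1 ha2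
  have n13 := hconfl 1 3 y1 y2 b1 b2 hy1 hy2 hb1 hb2
  have n23 := hconfl 2 3 a1 a2 b1 b2 ha1 ha2 hb1 hb2
  have n04 := hconfl 0 4 x1 x2 c1 c2 hx1 hx2 hc1 hc2
  have n15 := hconfl 1 5 y1 y2 d1 d2 hy1 hy2 hd1 hd2
  have n45 := hconfl 4 5 c1 c2 d1 d2 hc1 hc2 hd1 hd2
  have n06 := hconfl 0 6 x1 x2 e1 e2 hx1 hx2 he1 he2
  have n16 := hconfl 1 6 y1 y2 e1 e2 hy1 hy2 he1 he2
  have n07 := hconfl 0 7 x1 x2 g1 g2 hx1 hx2 hg1 hg2
  have n17 := hconfl 1 7 y1 y2 g1 g2 hy1 hy2 hg1 hg2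
  rcases hm2 with ((h | h) | h) | h
  · rcases h _ k2 with h' | h'
    · exact absurd (h'.symm.trans n02) (by decide)
    · rcases h' _ k3 with h'' | h''
      · exact absurd (h''.symm.trans n13) (by decide)
      · exact absurd (h''.symm.trans n23) (by decide)
  · rcases h _ k4 with h' | h'
    · exact absurd (h'.symm.trans n04) (by decide)
    · rcases h' _ k5 with h'' | h''
      · exact absurd (h''.symm.trans n15) (by decide)
      · exact absurd (h''.symm.trans n45) (by decide)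
  · rcases h _ k6 with h' | h'
    · exact absurd (h'.symm.trans n06) (by decide)
    · exact absurd (h'.symm.trans n16) (by decide)
  · rcases h _ k7 with h' | h'
    · exact absurd (h'.symm.trans n07) (by decide)
    · exact absurd (h'.symm.trans n17) (by decide)

/-! ## every 3-fold cover is fine -/

theorem two_free (N : Fin 3 → Prop) (hN : ∀ c c', N c → N c' → c = c') :
    ∃ c1 c2 : Fin 3, c1 ≠ c2 ∧ ¬ N c1 ∧ ¬ N c2 := by
  by_cases h0 : N 0
  · refine ⟨1, 2, by decide, fun h => ?_, fun h => ?_⟩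
    · exact absurd (hN _ _ h0 h) (by decide)
    · exact absurd (hN _ _ h0 h) (by decide)
  · by_cases h1 : N 1
    · refine ⟨0, 2, by decide, h0, fun h => ?_⟩
      exact absurd (hN _ _ h1 h) (by decide)
    · exact ⟨0, 1, by decide, h0, h1⟩

theorem cover_two (K P Q : Fin 3 × Fin 3 → Prop)
    (hK : ∀ z, K z → P z ∨ Q z) (hP : ∀ z z', P z → P z' → z = z')
    (hQ : ∀ z z', Q z → Q z' → z = z') :
    ∃ S : Finset (Fin 3 × Fin 3), S.card ≤ 2 ∧ ∀ z, K z → z ∈ S := by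
  classical
  refine ⟨Finset.univ.filter P ∪ Finset.univ.filter Q, ?_, ?_⟩
  · refine (Finset.card_union_le _ _).trans ?_
    have h1 : (Finset.univ.filter P).card ≤ 1 := by
      rw [Finset.card_le_one]
      intro a ha b hb
      exact hP a b (Finset.mem_filter.mp ha).2 (Finset.mem_filter.mp hb).2
    have h2 : (Finset.univ.filter Q).card ≤ 1 := by
      rw [Finset.card_le_one]
      intro a ha b hb
      exact hQ a b (Finset.mem_filter.mp ha).2 (Finset.mem_filter.mp hb).2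
    omega
  · intro z hz
    rcases hK z hz with h | h
    · exact Finset.mem_union_left _ (Finset.mem_filter.mpr ⟨Finset.mem_univ _, h⟩)
    · exact Finset.mem_union_right _ (Finset.mem_filter.mpr ⟨Finset.mem_univ _, h⟩)

/-- one interior vertex -/
theorem gadgetO (N : Fin 3 → Prop) (ru rv : Fin 3 → Fin 3 → Prop)
    (hN : ∀ c c', N c → N c' → c = c')
    (hu1 : ∀ x c c', ru x c → ru x c' → c = c') (hu2 : ∀ x x' c, ru x c → ru x' c → x = x')
    (hv1 : ∀ x c c', rv x c → rv x c' → c = c') (hv2 : ∀ x x' c, rv x c → rv x' c → x = x') :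
    ∃ S : Finset (Fin 3 × Fin 3), S.card ≤ 2 ∧
      ∀ z : Fin 3 × Fin 3, (∀ c, N c ∨ ru z.1 c ∨ rv z.2 c) → z ∈ S := by
  obtain ⟨c1, c2, h12, n1, n2⟩ := two_free N hN
  refine cover_two _ (fun z => ru z.1 c1 ∧ rv z.2 c2) (fun z => ru z.1 c2 ∧ rv z.2 c1) ?_ ?_ ?_
  · intro z hz
    have a1 := (hz c1).resolve_left n1
    have a2 := (hz c2).resolve_left n2
    rcases a1 with a1 | a1 <;> rcases a2 with a2 | a2
    · exact absurd (hu1 _ _ _ a1 a2) h12
    · exact Or.inl ⟨a1, a2⟩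
    · exact Or.inr ⟨a2, a1⟩
    · exact absurd (hv1 _ _ _ a1 a2) h12
  · intro z z' h h'
    exact Prod.ext (hu2 _ _ _ h.1 h'.1) (hv2 _ _ _ h.2 h'.2)
  · intro z z' h h'
    exact Prod.ext (hu2 _ _ _ h.1 h'.1) (hv2 _ _ _ h.2 h'.2)

/-- two interior vertices -/
theorem gadgetE (N M : Fin 3 → Prop) (ru rv m : Fin 3 → Fin 3 → Prop)
    (hN : ∀ c c', N c → N c' → c = c') (hM : ∀ c c', M c → M c' → c = c')
    (hu1 : ∀ x c c', ru x c → ru x c' → c = c') (hu2 : ∀ x x' c, ru x c → ru x' c → x = x')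
    (hv1 : ∀ x c c', rv x c → rv x c' → c = c') (hv2 : ∀ x x' c, rv x c → rv x' c → x = x')
    (hm1 : ∀ x c c', m x c → m x c' → c = c') (hm2 : ∀ x x' c, m x c → m x' c → x = x') :
    ∃ S : Finset (Fin 3 × Fin 3), S.card ≤ 2 ∧
      ∀ z : Fin 3 × Fin 3, (∀ c d, N c ∨ ru z.1 c ∨ M d ∨ rv z.2 d ∨ m c d) → z ∈ S := by
  obtain ⟨c1, c2, h12, n1, n2⟩ := two_free N hN
  obtain ⟨d1, d2, g12, m1, m2⟩ := two_free M hM
  -- key: a killed pair forces one of four patterns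
  have key : ∀ z : Fin 3 × Fin 3, (∀ c d, N c ∨ ru z.1 c ∨ M d ∨ rv z.2 d ∨ m c d) →
      (ru z.1 c1 ∧ rv z.2 d1 ∧ m c2 d2) ∨ (ru z.1 c1 ∧ rv z.2 d2 ∧ m c2 d1) ∨
      (ru z.1 c2 ∧ rv z.2 d1 ∧ m c1 d2) ∨ (ru z.1 c2 ∧ rv z.2 d2 ∧ m c1 d1) := by
    intro z hz
    have e11 := ((hz c1 d1).resolve_left n1)
    have e12 := ((hz c1 d2).resolve_left n1)
    have e21 := ((hz c2 d1).resolve_left n2)
    have e22 := ((hz c2 d2).resolve_left n2)
    have xu : ru z.1 c1 → ru z.1 c2 → False := fun h h' => h12 (hu1 _ _ _ h h')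
    have xv : rv z.2 d1 → rv z.2 d2 → False := fun h h' => g12 (hv1 _ _ _ h h')
    have x1 : m c1 d1 → m c1 d2 → False := fun h h' => g12 (hm1 _ _ _ h h')
    have x2 : m c2 d1 → m c2 d2 → False := fun h h' => g12 (hm1 _ _ _ h h')
    have x3 : m c1 d1 → m c2 d1 → False := fun h h' => h12 (hm2 _ _ _ h h')
    have x4 : m c1 d2 → m c2 d2 → False := fun h h' => h12 (hm2 _ _ _ h h')
    by_cases u1 : ru z.1 c1
    · have u2 : ¬ ru z.1 c2 := fun h => xu u1 h
      have f1 : rv z.2 d1 ∨ m c2 d1 := (e21.resolve_left u2).resolve_left m1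
      have f2 : rv z.2 d2 ∨ m c2 d2 := (e22.resolve_left u2).resolve_left m2
      rcases f1 with f1 | f1
      · rcases f2 with f2 | f2
        · exact (xv f1 f2).elim
        · exact Or.inl ⟨u1, f1, f2⟩
      · rcases f2 with f2 | f2
        · exact Or.inr (Or.inl ⟨u1, f2, f1⟩)
        · exact (x2 f1 f2).elim
    · have f1 : rv z.2 d1 ∨ m c1 d1 := (e11.resolve_left u1).resolve_left m1
      have f2 : rv z.2 d2 ∨ m c1 d2 := (e12.resolve_left u1).resolve_left m2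
      by_cases u2 : ru z.1 c2
      · rcases f1 with f1 | f1
        · rcases f2 with f2 | f2
          · exact (xv f1 f2).elim
          · exact Or.inr (Or.inr (Or.inl ⟨u2, f1, f2⟩))
        · rcases f2 with f2 | f2
          · exact Or.inr (Or.inr (Or.inr ⟨u2, f2, f1⟩))
          · exact (x1 f1 f2).elim
      · have f3 : rv z.2 d1 ∨ m c2 d1 := (e21.resolve_left u2).resolve_left m1
        have f4 : rv z.2 d2 ∨ m c2 d2 := (e22.resolve_left u2).resolve_left m2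
        exfalso
        by_cases v1 : rv z.2 d1
        · have v2 : ¬ rv z.2 d2 := fun h => xv v1 h
          exact x4 (f2.resolve_left v2) (f4.resolve_left v2)
        · exact x3 (f1.resolve_left v1) (f3.resolve_left v1)
  by_cases hcase : m c1 d1
  · refine cover_two _ (fun z => ru z.1 c1 ∧ rv z.2 d1) (fun z => ru z.1 c2 ∧ rv z.2 d2) ?_ ?_ ?_
    · intro z hz
      rcases key z hz with h | h | h | h
      · exact Or.inl ⟨h.1, h.2.1⟩
      · exact absurd (hm2 _ _ _ hcase h.2.2) h12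
      · exact absurd (hm1 _ _ _ hcase h.2.2) g12
      · exact Or.inr ⟨h.1, h.2.1⟩
    · intro z z' h h'
      exact Prod.ext (hu2 _ _ _ h.1 h'.1) (hv2 _ _ _ h.2 h'.2)
    · intro z z' h h'
      exact Prod.ext (hu2 _ _ _ h.1 h'.1) (hv2 _ _ _ h.2 h'.2)
  · by_cases hcase2 : m c2 d2
    · refine cover_two _ (fun z => ru z.1 c1 ∧ rv z.2 d1) (fun z => ru z.1 c1 ∧ rv z.2 d1) ?_ ?_ ?_
      · intro z hz
        rcases key z hz with h | h | h | h
        · exact Or.inl ⟨h.1, h.2.1⟩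
        · exact absurd (hm1 _ _ _ hcase2 h.2.2) (Ne.symm g12)
        · exact absurd (hm2 _ _ _ hcase2 h.2.2) (Ne.symm h12)
        · exact absurd h.2.2 hcase
      · intro z z' h h'
        exact Prod.ext (hu2 _ _ _ h.1 h'.1) (hv2 _ _ _ h.2 h'.2)
      · intro z z' h h'
        exact Prod.ext (hu2 _ _ _ h.1 h'.1) (hv2 _ _ _ h.2 h'.2)
    · refine cover_two _ (fun z => ru z.1 c1 ∧ rv z.2 d2) (fun z => ru z.1 c2 ∧ rv z.2 d1) ?_ ?_ ?_
      · intro z hz
        rcases key z hz with h | h | h | h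
        · exact absurd h.2.2 hcase2
        · exact Or.inl ⟨h.1, h.2.1⟩
        · exact Or.inr ⟨h.1, h.2.1⟩
        · exact absurd h.2.2 hcase
      · intro z z' h h'
        exact Prod.ext (hu2 _ _ _ h.1 h'.1) (hv2 _ _ _ h.2 h'.2)
      · intro z z' h h'
        exact Prod.ext (hu2 _ _ _ h.1 h'.1) (hv2 _ _ _ h.2 h'.2)

theorem copy_ok (N : Fin 8 → Fin 3 → Prop) (R : Fin 8 → Fin 8 → Fin 3 → Fin 3 → Prop)
    (hN : ∀ s c c', N s c → N s c' → c = c')
    (hsym : ∀ s t c d, R s t c d → R t s d c)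
    (hmat : ∀ s t c d e, R s t c d → R s t c e → d = e)
    (hedge : ∀ s t c d, R s t c d → gN s.val t.val = true) :
    ∃ g : Fin 8 → Fin 3, (∀ s t, ¬ R s t (g s) (g t)) ∧ (∀ s, 2 ≤ s.val → ¬ N s (g s)) := by
  have hmat2 : ∀ s t c d e, R s t c e → R s t d e → c = d := fun s t c d e h h' =>
    hmat t s e c d (hsym _ _ _ _ h) (hsym _ _ _ _ h')
  obtain ⟨S1, hS1, k1⟩ := gadgetE (N 2) (N 3) (R 0 2) (R 1 3) (R 2 3) (hN 2) (hN 3)
    (fun x c c' => hmat _ _ _ _ _) (fun x x' c => hmat2 _ _ _ _ _)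
    (fun x c c' => hmat _ _ _ _ _) (fun x x' c => hmat2 _ _ _ _ _)
    (fun x c c' => hmat _ _ _ _ _) (fun x x' c => hmat2 _ _ _ _ _)
  obtain ⟨S2, hS2, k2⟩ := gadgetE (N 4) (N 5) (R 0 4) (R 1 5) (R 4 5) (hN 4) (hN 5)
    (fun x c c' => hmat _ _ _ _ _) (fun x x' c => hmat2 _ _ _ _ _)
    (fun x c c' => hmat _ _ _ _ _) (fun x x' c => hmat2 _ _ _ _ _)
    (fun x c c' => hmat _ _ _ _ _) (fun x x' c => hmat2 _ _ _ _ _)
  obtain ⟨S3, hS3, k3⟩ := gadgetO (N 6) (R 0 6) (R 1 6) (hN 6)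
    (fun x c c' => hmat _ _ _ _ _) (fun x x' c => hmat2 _ _ _ _ _)
    (fun x c c' => hmat _ _ _ _ _) (fun x x' c => hmat2 _ _ _ _ _)
  obtain ⟨S4, hS4, k4⟩ := gadgetO (N 7) (R 0 7) (R 1 7) (hN 7)
    (fun x c c' => hmat _ _ _ _ _) (fun x x' c => hmat2 _ _ _ _ _)
    (fun x c c' => hmat _ _ _ _ _) (fun x x' c => hmat2 _ _ _ _ _)
  have hcard : (S1 ∪ S2 ∪ (S3 ∪ S4)).card < (Finset.univ : Finset (Fin 3 × Fin 3)).card := by
    have e1 := Finset.card_union_le (S1 ∪ S2) (S3 ∪ S4)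
    have e2 := Finset.card_union_le S1 S2
    have e3 := Finset.card_union_le S3 S4
    have e4 : (Finset.univ : Finset (Fin 3 × Fin 3)).card = 9 := by simp
    omega
  obtain ⟨z, -, hz⟩ := Finset.exists_mem_notMem_of_card_lt_card hcard
  simp only [Finset.mem_union, not_or] at hz
  obtain ⟨⟨z1, z2⟩, ⟨z3, z4⟩⟩ := hz
  have q1 : ¬ ∀ c d, N 2 c ∨ R 0 2 z.1 c ∨ N 3 d ∨ R 1 3 z.2 d ∨ R 2 3 c d := fun h => z1 (k1 z h)
  have q2 : ¬ ∀ c d, N 4 c ∨ R 0 4 z.1 c ∨ N 5 d ∨ R 1 5 z.2 d ∨ R 4 5 c d := fun h => z2 (k2 z h)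
  have q3 : ¬ ∀ c, N 6 c ∨ R 0 6 z.1 c ∨ R 1 6 z.2 c := fun h => z3 (k3 z h)
  have q4 : ¬ ∀ c, N 7 c ∨ R 0 7 z.1 c ∨ R 1 7 z.2 c := fun h => z4 (k4 z h)
  push Not at q1 q2 q3 q4
  obtain ⟨a, b, a1, a2, a3, a4, a5⟩ := q1
  obtain ⟨c, d, c1, c2, c3, c4, c5⟩ := q2
  obtain ⟨e, e1, e2, e3⟩ := q3
  obtain ⟨g, g1, g2, g3⟩ := q4
  refine ⟨![z.1, z.2, a, b, c, d, e, g], ?_, ?_⟩
  · intro s t hst
    have hg := hedge _ _ _ _ hst
    have hg' : gDir s.val t.val = true ∨ gDir t.val s.val = true := by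
      unfold gN at hg; simpa using hg
    have main : ∀ s t : Fin 8, gDir s.val t.val = true →
        ¬ R s t (![z.1, z.2, a, b, c, d, e, g] s) (![z.1, z.2, a, b, c, d, e, g] t) := by
      intro s t h
      have hcases : (s = 0 ∧ t = 2) ∨ (s = 1 ∧ t = 3) ∨ (s = 2 ∧ t = 3) ∨ (s = 0 ∧ t = 4) ∨
          (s = 1 ∧ t = 5) ∨ (s = 4 ∧ t = 5) ∨ (s = 0 ∧ t = 6) ∨ (s = 1 ∧ t = 6) ∨
          (s = 0 ∧ t = 7) ∨ (s = 1 ∧ t = 7) := by
        have key : ∀ s t : Fin 8, gDir s.val t.val = true →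
          (s = 0 ∧ t = 2) ∨ (s = 1 ∧ t = 3) ∨ (s = 2 ∧ t = 3) ∨ (s = 0 ∧ t = 4) ∨
          (s = 1 ∧ t = 5) ∨ (s = 4 ∧ t = 5) ∨ (s = 0 ∧ t = 6) ∨ (s = 1 ∧ t = 6) ∨
          (s = 0 ∧ t = 7) ∨ (s = 1 ∧ t = 7) := by decide +kernel
        exact key s t h
      rcases hcases with ⟨rfl, rfl⟩ | ⟨rfl, rfl⟩ | ⟨rfl, rfl⟩ | ⟨rfl, rfl⟩ | ⟨rfl, rfl⟩ |
        ⟨rfl, rfl⟩ | ⟨rfl, rfl⟩ | ⟨rfl, rfl⟩ | ⟨rfl, rfl⟩ | ⟨rfl, rfl⟩
      · exact a2
      · exact a4
      · exact a5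
      · exact c2
      · exact c4
      · exact c5
      · exact e2
      · exact e3
      · exact g2
      · exact g3
    rcases hg' with h | h
    · exact main s t h hst
    · exact main t s h (hsym _ _ _ _ hst)
  · intro s hs
    have hcases : s = 2 ∨ s = 3 ∨ s = 4 ∨ s = 5 ∨ s = 6 ∨ s = 7 := by
      have key : ∀ s : Fin 8, 2 ≤ s.val → s = 2 ∨ s = 3 ∨ s = 4 ∨ s = 5 ∨ s = 6 ∨ s = 7 := by
        decide +kernel
      exact key s hs
    rcases hcases with rfl | rfl | rfl | rfl | rfl | rfl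
    · exact a1
    · exact a3
    · exact c1
    · exact c3
    · exact e1
    · exact g1

theorem three_ok (H : SimpleGraph (V × Fin 3))
    (h1 : ∀ x y : V × Fin 3, H.Adj x y → G.Adj x.1 y.1)
    (h2 : ∀ (x : V × Fin 3) (v : V) (j k : Fin 3), H.Adj x (v, j) → H.Adj x (v, k) → j = k) :
    ∃ f : V → Finset (Fin 3), (∀ v, (f v).card = 1) ∧
      ∀ (u v : V), ∀ i ∈ f u, ∀ j ∈ f v, ¬ H.Adj (u, i) (v, j) := by
  have hcopy : ∀ k : Fin 6 × Fin 6, ∃ g : Fin 8 → Fin 3,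
      (∀ s t, ¬ H.Adj (some (k, s), g s) (some (k, t), g t)) ∧
      (∀ s, 2 ≤ s.val → ¬ H.Adj (none, 0) (some (k, s), g s)) := by
    intro k
    exact copy_ok (fun s c => H.Adj (none, 0) (some (k, s), c))
      (fun s t c d => H.Adj (some (k, s), c) (some (k, t), d))
      (fun s c c' h h' => h2 _ _ _ _ h h')
      (fun s t c d h => h.symm)
      (fun s t c d e h h' => h2 _ _ _ _ h h')
      (fun s t c d h => (h1 _ _ h).2)
  choose g hg1 hg2 using hcopy
  refine ⟨fun v => match v with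
    | none => {0}
    | some (k, s) => {g k s}, ?_, ?_⟩
  · rintro (_ | ⟨k, s⟩)
    · simp
    · simp
  · rintro (_ | ⟨k, s⟩) (_ | ⟨k', s'⟩) i hi j hj hadj
    · exact h1 _ _ hadj
    · have hi' : i = 0 := by simpa using hi
      have hj' : j = g k' s' := by simpa using hj
      subst hi' hj'
      exact hg2 k' s' (h1 _ _ hadj) hadj
    · have hi' : i = g k s := by simpa using hi
      have hj' : j = 0 := by simpa using hj
      subst hi' hj'
      exact hg2 k s (h1 _ _ hadj) hadj.symm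
    · have hi' : i = g k s := by simpa using hi
      have hj' : j = g k' s' := by simpa using hj
      subst hi' hj'
      have hk : k = k' := (h1 _ _ hadj).1
      subst hk
      exact hg1 k s s' hadj

end Pool.Agent.H174R3.DP
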