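import Mathlib

set_option autoImplicit false

namespace Pool.Agent.H174R3.TC

open SimpleGraph Finset

/-- sizes of the ten parts -/
def s : Fin 10 → ℕ := ![950, 950, 950, 462, 482, 493, 493, 493, 503, 524]

abbrev W : Type := Σ i : Fin 10, Fin (s i)

theorem card_W : Fintype.card W = 700 * 9 := by
  rw [Fintype.card_sigma]
  simp only [Fintype.card_fin]
  simp [s, Fin.sum_univ_succ]

/-- the complete 10-partite graph -/
def K : SimpleGraph W where
  Adj x y := x.1 ≠ y.1
  symm := ⟨fun _ _ h => h.symm⟩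
  loopless := ⟨fun _ h => h rfl⟩

noncomputable def e : W ≃ Fin (700 * 9) := Fintype.equivFinOfCardEq card_W

/-- the graph on `Fin 6300` -/
noncomputable def G : SimpleGraph (Fin (700 * 9)) := K.map e.toEmbedding

noncomputable def iso : K ≃g G := SimpleGraph.Iso.map e K

theorem gen {V : Type} [Fintype V] (H : SimpleGraph V) (f : V → ℕ) (N : ℕ)
    (hdeg : ∀ v, Nat.card {w // H.Adj v w} + f v = N) :
    2 * Nat.card H.edgeSet + ∑ v, f v = Fintype.card V * N := by
  classical
  have h1 : ∑ v : V, (H.degree v + f v) = Fintype.card V * N := by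
    have h0 : ∀ v ∈ (Finset.univ : Finset V), H.degree v + f v = N := by
      intro v _
      rw [← hdeg v]
      congr 1
      rw [← SimpleGraph.card_neighborSet_eq_degree, Nat.card_eq_fintype_card]
      rfl
    rw [Finset.sum_congr rfl h0, Finset.sum_const, Finset.card_univ, smul_eq_mul]
  rw [Finset.sum_add_distrib, H.sum_degrees_eq_twice_card_edges] at h1
  rw [← h1, Nat.card_eq_fintype_card, ← SimpleGraph.edgeFinset_card]

theorem deg_K (x : W) : Nat.card {y // K.Adj x y} + s x.1 = 700 * 9 := by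
  classical
  have h1 : Nat.card {y : W // y.1 = x.1} = s x.1 := by
    rw [Nat.card_congr (Equiv.sigmaSubtype x.1), Nat.card_eq_fintype_card, Fintype.card_fin]
  have h2 : Nat.card {y // K.Adj x y} = Nat.card {y : W // ¬ (y.1 = x.1)} := by
    refine Nat.card_congr (Equiv.subtypeEquivRight (fun y => ?_))
    exact ⟨fun h h' => h h'.symm, fun h h' => h h'.symm⟩
  have h3 : Nat.card {y : W // y.1 = x.1} + Nat.card {y : W // ¬ (y.1 = x.1)} = 700 * 9 := by
    rw [← card_W, ← Nat.card_eq_fintype_card, ← Nat.card_sum]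
    exact Nat.card_congr (Equiv.sumCompl (fun y : W => y.1 = x.1))
  rw [h2, ← h3, h1]
  exact Nat.add_comm _ _

theorem sum_sq : ∑ i : Fin 10, s i * s i = 4410000 := by
  simp [s, Fin.sum_univ_succ]

theorem edges_K2 : ∑ v : W, s v.1 = 4410000 := by
  rw [Fintype.sum_sigma, ← sum_sq]
  refine Finset.sum_congr rfl (fun i _ => ?_)
  show ∑ _y : Fin (s i), s i = s i * s i
  rw [Finset.sum_const, Finset.card_univ, Fintype.card_fin, smul_eq_mul]

theorem edges_K3 (E : ℕ) (h : 2 * E + 4410000 = (700 * 9) * (700 * 9)) : E = 17640000 := by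
  norm_num at h
  omega

theorem edges_K : Nat.card K.edgeSet = 17640000 := by
  have h1 := gen K (fun v => s v.1) (700 * 9) deg_K
  rw [edges_K2, card_W] at h1
  exact edges_K3 _ h1

theorem edges_eq : Nat.card G.edgeSet = Nat.card (SimpleGraph.turanGraph (700 * 9) 9).edgeSet := by
  have h1 : Nat.card K.edgeSet = Nat.card G.edgeSet := Nat.card_congr iso.mapEdgeSet
  have h4 : ((700 * 9) ^ 2 - (700 * 9 % 9) ^ 2) * (9 - 1) / (2 * 9) + (700 * 9 % 9).choose 2 = 17640000 := by
    norm_num
  rw [← h1, edges_K, Nat.card_eq_fintype_card, ← SimpleGraph.edgeFinset_card,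
    SimpleGraph.card_edgeFinset_turanGraph, h4]

theorem pos_s (i : Fin 10) : 0 < s i := by
  fin_cases i <;> simp [s]

theorem not_iso : IsEmpty (G ≃g SimpleGraph.turanGraph (700 * 9) 9) := by
  constructor
  intro φ
  let f : Fin 10 → Fin 9 := fun i => ⟨(φ (iso ⟨i, ⟨0, pos_s i⟩⟩)).val % 9, Nat.mod_lt _ (by norm_num)⟩
  have hf : Function.Injective f := by
    intro i j hij
    by_contra hne
    have h1 : K.Adj ⟨i, ⟨0, pos_s i⟩⟩ ⟨j, ⟨0, pos_s j⟩⟩ := hne
    have h2 : (SimpleGraph.turanGraph (700 * 9) 9).Adj (φ (iso ⟨i, ⟨0, pos_s i⟩⟩))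
        (φ (iso ⟨j, ⟨0, pos_s j⟩⟩)) := by
      rw [φ.map_adj_iff, iso.map_adj_iff]; exact h1
    rw [SimpleGraph.turanGraph_adj] at h2
    exact h2 (congrArg Fin.val hij)
  have := Fintype.card_le_of_injective f hf
  simp at this

/-! ### upper bound for the Turán graph -/

theorem prod_le (x : Fin 9 → ℕ) (hx : ∑ i, x i = 13) : ∏ i, x i ≤ 16 := by
  by_cases h0 : ∃ i, x i = 0
  · obtain ⟨i, hi⟩ := h0
    rw [Finset.prod_eq_zero (Finset.mem_univ i) hi]
    norm_num
  · push Not at h0
    have h1 : ∀ i, x i ≤ 2 ^ (x i - 1) := by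
      intro i
      have hpos : 1 ≤ x i := Nat.one_le_iff_ne_zero.mpr (h0 i)
      have := Nat.lt_two_pow_self (n := x i - 1)
      omega
    calc ∏ i, x i ≤ ∏ i, 2 ^ (x i - 1) := Finset.prod_le_prod' (fun i _ => h1 i)
      _ = 2 ^ (∑ i, (x i - 1)) := by rw [Finset.prod_pow_eq_pow_sum]
      _ ≤ 16 := by
        have h2 : ∑ i, (x i - 1) + ∑ _i : Fin 9, 1 = ∑ i, x i := by
          rw [← Finset.sum_add_distrib]
          refine Finset.sum_congr rfl (fun i _ => ?_)
          have hpos : 1 ≤ x i := Nat.one_le_iff_ne_zero.mpr (h0 i)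
          omega
        rw [hx] at h2
        have h3 : ∑ i, (x i - 1) = 4 := by
          simp at h2
          omega
        rw [h3]
        norm_num

def md (v : Fin (700 * 9)) : Fin 9 := ⟨v.val % 9, Nat.mod_lt _ (by norm_num)⟩

abbrev Big : Type := Σ φ : Fin 13 → Fin 9, (∀ v : Fin (700 * 9), {x : Fin 13 // φ x = md v})

theorem card_Big : Fintype.card Big ≤ 9 ^ 13 * 16 ^ 700 := by
  classical
  rw [Fintype.card_sigma]
  have h1 : ∀ φ : Fin 13 → Fin 9,
      Fintype.card (∀ v : Fin (700 * 9), {x : Fin 13 // φ x = md v}) ≤ 16 ^ 700 := by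
    intro φ
    rw [Fintype.card_pi]
    have h2 : ∏ v : Fin (700 * 9), Fintype.card {x : Fin 13 // φ x = md v} =
        ∏ a : Fin 700 × Fin 9, Fintype.card {x : Fin 13 // φ x = a.2} := by
      refine (Fintype.prod_equiv finProdFinEquiv _ _ ?_).symm
      rintro ⟨a, i⟩
      have : md (finProdFinEquiv (a, i)) = i := by
        apply Fin.ext
        simp only [md, finProdFinEquiv_apply_val]
        omega
      rw [this]
    rw [h2, Fintype.prod_prod_type]
    show (∏ _x : Fin 700, ∏ i : Fin 9, Fintype.card {x : Fin 13 // φ x = i}) ≤ 16 ^ 700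
    rw [Finset.prod_const, Finset.card_univ, Fintype.card_fin]
    refine Nat.pow_le_pow_left ?_ _
    refine prod_le _ ?_
    have h3 : ∑ i : Fin 9, Fintype.card {x : Fin 13 // φ x = i} = Fintype.card (Fin 13) := by
      rw [← Fintype.card_sigma]
      exact Fintype.card_congr (Equiv.sigmaFiberEquiv φ)
    rw [h3, Fintype.card_fin]
  calc ∑ φ : Fin 13 → Fin 9, Fintype.card (∀ v : Fin (700 * 9), {x : Fin 13 // φ x = md v})
      ≤ ∑ _φ : Fin 13 → Fin 9, 16 ^ 700 := Finset.sum_le_sum (fun φ _ => h1 φ)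
    _ = 9 ^ 13 * 16 ^ 700 := by
      rw [Finset.sum_const, Finset.card_univ, Fintype.card_fun, Fintype.card_fin, Fintype.card_fin,
        smul_eq_mul]

theorem exists_phi (C : (SimpleGraph.turanGraph (700 * 9) 9).Coloring (Fin 13)) :
    ∃ φ : Fin 13 → Fin 9, ∀ v, φ (C v) = md v := by
  classical
  refine ⟨fun x => if h : ∃ v, C v = x then md h.choose else 0, ?_⟩
  intro v
  have h : ∃ w, C w = C v := ⟨v, rfl⟩
  simp only [dif_pos h]
  by_contra hne
  have h1 : (SimpleGraph.turanGraph (700 * 9) 9).Adj h.choose v := by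
    rw [SimpleGraph.turanGraph_adj]
    intro h2
    exact hne (Fin.ext h2)
  exact C.valid h1 h.choose_spec

theorem upper : Nat.card ((SimpleGraph.turanGraph (700 * 9) 9).Coloring (Fin 13)) ≤
    9 ^ 13 * 16 ^ 700 := by
  classical
  refine le_trans ?_ card_Big
  rw [← Nat.card_eq_fintype_card]
  let F : (SimpleGraph.turanGraph (700 * 9) 9).Coloring (Fin 13) → Big := fun C =>
    ⟨(exists_phi C).choose, fun v => ⟨C v, (exists_phi C).choose_spec v⟩⟩
  refine Nat.card_le_card_of_injective F ?_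
  intro C D h
  have h1 : (fun v => ((F C).2 v).1) = (fun v => ((F D).2 v).1) := by rw [h]
  exact DFunLike.coe_injective h1

/-! ### lower bound for the ten-partite graph -/

theorem s_lt (j : Fin 3) : s (Fin.castLE (by norm_num) j) = 950 := by
  fin_cases j <;> rfl

def colK (h : Fin 3 × Fin 950 → Bool) (x : W) : Fin 13 :=
  if hc : x.1.val < 3 ∧ x.2.val < 950 then
    ⟨2 * x.1.val + (if h (⟨x.1.val, hc.1⟩, ⟨x.2.val, hc.2⟩) then 1 else 0), by
      have := hc.1
      split <;> omega⟩
  else if h3 : x.1.val < 3 then ⟨2 * x.1.val, by omega⟩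
  else ⟨3 + x.1.val, by omega⟩

def blk (y : Fin 13) : ℕ := if y.val < 6 then y.val / 2 else y.val - 3

theorem blk_colK (h : Fin 3 × Fin 950 → Bool) (x : W) : blk (colK h x) = x.1.val := by
  by_cases hc : x.1.val < 3 ∧ x.2.val < 950
  · have e1 : (colK h x).val =
        2 * x.1.val + (if h (⟨x.1.val, hc.1⟩, ⟨x.2.val, hc.2⟩) then 1 else 0) := by
      unfold colK
      rw [dif_pos hc]
    have hb : (if h (⟨x.1.val, hc.1⟩, ⟨x.2.val, hc.2⟩) then 1 else 0 : ℕ) ≤ 1 := by
      split <;> omega
    have h3 := hc.1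
    obtain ⟨b, hb', e1'⟩ : ∃ b : ℕ, b ≤ 1 ∧ (colK h x).val = 2 * x.1.val + b := ⟨_, hb, e1⟩
    unfold blk
    rw [e1']
    split <;> omega
  · by_cases h3 : x.1.val < 3
    · have e1 : (colK h x).val = 2 * x.1.val := by
        unfold colK
        rw [dif_neg hc, dif_pos h3]
      unfold blk
      rw [e1]
      split <;> omega
    · have e1 : (colK h x).val = 3 + x.1.val := by
        unfold colK
        rw [dif_neg hc, dif_neg h3]
      unfold blk
      rw [e1]
      split <;> omega

noncomputable def colG (h : Fin 3 × Fin 950 → Bool) : G.Coloring (Fin 13) :=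
  SimpleGraph.Coloring.mk (fun v => colK h (iso.symm v)) (by
    intro v w hvw heq
    have h1 : K.Adj (iso.symm v) (iso.symm w) := iso.symm.map_adj_iff.mpr hvw
    apply h1
    apply Fin.ext
    rw [← blk_colK h, ← blk_colK h, heq])

theorem colG_injective : Function.Injective colG := by
  intro h h' heq
  funext ⟨j, y⟩
  have hs := s_lt j
  let x : W := ⟨Fin.castLE (by norm_num) j, Fin.cast hs.symm y⟩
  have hx : colK h x = colK h' x := by
    have h1 : colG h (iso x) = colG h' (iso x) := by rw [heq]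
    have h2 : ∀ g, colG g (iso x) = colK g x := by
      intro g
      show colK g (iso.symm (iso x)) = colK g x
      rw [iso.symm_apply_apply]
    rw [h2, h2] at h1
    exact h1
  have hc : x.1.val < 3 ∧ x.2.val < 950 := ⟨j.isLt, y.isLt⟩
  have e1 : ∀ g : Fin 3 × Fin 950 → Bool,
      (colK g x).val = 2 * j.val + (if g (j, y) then 1 else 0) := by
    intro g
    unfold colK
    rw [dif_pos hc]
    rfl
  have h3 : (colK h x).val = (colK h' x).val := by rw [hx]
  rw [e1, e1] at h3
  cases ha : h (j, y) <;> cases hb : h' (j, y) <;> simp_all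

theorem lower : 2 ^ 2850 ≤ Nat.card (G.Coloring (Fin 13)) := by
  classical
  haveI : Finite (G.Coloring (Fin 13)) := by
    exact Finite.of_injective (fun C => (C : Fin (700 * 9) → Fin 13)) DFunLike.coe_injective
  have h1 := Nat.card_le_card_of_injective colG colG_injective
  rw [Nat.card_eq_fintype_card (α := Fin 3 × Fin 950 → Bool)] at h1
  have h2 : Fintype.card (Fin 3 × Fin 950 → Bool) = 2 ^ 2850 := by
    rw [Fintype.card_fun, Fintype.card_prod, Fintype.card_fin, Fintype.card_fin, Fintype.card_bool]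
  rw [h2] at h1
  exact h1

theorem final : Nat.card ((SimpleGraph.turanGraph (700 * 9) 9).Coloring (Fin 13)) ≤
    Nat.card (G.Coloring (Fin 13)) := by
  refine upper.trans (le_trans ?_ lower)
  have : (16 : ℕ) ^ 700 = 2 ^ 2800 := by
    rw [show (16 : ℕ) = 2 ^ 4 from rfl, ← pow_mul]
  rw [this, show (2850 : ℕ) = 50 + 2800 from rfl, pow_add]
  refine Nat.mul_le_mul_right _ ?_
  norm_num

end Pool.Agent.H174R3.TC
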